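import Pool.Agent.HUK.Stmts
import Pool.Agent.Helper33_MTL.Fra
import Pool.Agent.Helper34_MTL.Ser

/-! HUK, row SBV (helper7): for the places at all algebraic points outside of `S` the image of the
decomposition group contains the image of a subgroup of finite index. -/

set_option autoImplicit false

namespace Pool.Agent.HUK.H7

open Polynomial NumberField Matrix Pool.Agent.MTL Pool.Agent.MTL.H34 Pool.Agent.Helper78_MT
  Pool.Agent.HIK Pool.Agent.HIP Pool.Agent.MTPN Pool.Agent.MTN

/-- an integral polynomial of small degree with the root `c` -/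
theorem exists_poly (ctp : CtpStmt) (π : BB →+* QB) (c : BB) (hc : IsAlgebraic ℚ (c : Om)) :
    ∃ p : ℤ[X], p ≠ 0 ∧ aeval (c : Om) p = 0 ∧ p.natDegree ≤ (minpoly ℚ (π c)).natDegree := by
  classical
  have hα : IsIntegral ℚ (π c) :=
    ((AlgebraicClosure.isAlgebraic ℚ).isAlgebraic (π c)).isIntegral
  set q := minpoly ℚ (π c) with hq
  have hq0 : q ≠ 0 := minpoly.ne_zero hα
  obtain ⟨b, hbm, hb⟩ := IsLocalization.integerNormalization_spec (nonZeroDivisors ℤ) q
  set p := IsLocalization.integerNormalization (nonZeroDivisors ℤ) q with hp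
  have hb0 : b ≠ 0 := nonZeroDivisors.ne_zero hbm
  have hp0 : p ≠ 0 := by
    intro h
    rw [h, Polynomial.map_zero] at hb
    rcases smul_eq_zero.1 hb.symm with h3 | h3
    · exact hb0 h3
    · exact hq0 h3
  have hdeg : p.natDegree ≤ q.natDegree := by
    have h1 : (p.map (algebraMap ℤ ℚ)).natDegree = p.natDegree :=
      natDegree_map_eq_of_injective (algebraMap ℤ ℚ).injective_int p
    rw [← h1, hb]
    exact natDegree_smul_le _ _
  have hα0 : p.eval₂ (Int.castRingHom QB) (π c) = 0 := by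
    have h1 : (p.map (algebraMap ℤ ℚ)).eval₂ (algebraMap ℚ QB) (π c) = 0 := by
      rw [hb, ← aeval_def, map_zsmul, hq, minpoly.aeval, smul_zero]
    rw [eval₂_map] at h1
    rw [Subsingleton.elim (Int.castRingHom QB) ((algebraMap ℚ QB).comp (algebraMap ℤ ℚ))]
    exact h1
  have hc0 : p.eval₂ (Int.castRingHom BB) c = 0 := by
    apply (ctp π).2.1
    · have h2 : IsIntegral ℚ (c : Om) := hc.isIntegral
      have h3 : ((p.eval₂ (Int.castRingHom BB) c : BB) : Om) ∈ integralClosure ℚ Om := by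
        rw [eval₂_eq_sum_range]
        have h4 : ((∑ i ∈ Finset.range (p.natDegree + 1),
            (Int.castRingHom BB) (p.coeff i) * c ^ i : BB) : Om) =
            ∑ i ∈ Finset.range (p.natDegree + 1), ((p.coeff i : ℤ) : Om) * (c : Om) ^ i := by
          rw [AddSubmonoidClass.coe_finsetSum]
          refine Finset.sum_congr rfl fun i _ => ?_
          simp
        rw [h4]
        exact sum_mem fun i _ => mul_mem (intCast_mem _ _) (pow_mem h2 i)
      exact IsIntegral.isAlgebraic h3
    · have : ((0 : BB) : Om) = 0 := rfl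
      rw [this]
      exact isAlgebraic_zero
    · rw [map_zero, hom_eval₂,
        Subsingleton.elim (π.comp (Int.castRingHom BB)) (Int.castRingHom QB)]
      exact hα0
  refine ⟨p, hp0, ?_, hdeg⟩
  have h6 : (BB.val.toRingHom) (p.eval₂ (Int.castRingHom BB) c) = 0 := by
    rw [hc0, map_zero]
  rw [hom_eval₂] at h6
  rw [aeval_def, Subsingleton.elim (algebraMap ℤ Om)
    ((BB.val.toRingHom).comp (Int.castRingHom BB))]
  exact h6

/-- SBV: the image of the decomposition group contains the image of a subgroup of finite index. -/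
theorem sbv (hcu : HcuStmt) (ctp : CtpStmt) (idx : IdxStmt) (fgi : FgiStmt) (dgu : DguStmt) :
    SbvStmt := by
  classical
  intro H hH d _ _ ℓ _ ρ hρ
  have hHc : IsClosed (H : Set GT) := Subgroup.isClosed_of_isOpen _ hH
  have hcH : CompactSpace H := isCompact_iff_compactSpace.1 hHc.isCompact
  have hGc : IsCompact ((ρ.range : Subgroup (GL d ℚ_[ℓ])) : Set (GL d ℚ_[ℓ])) := by
    rw [MonoidHom.coe_range, ← Set.image_univ]
    exact isCompact_univ.image hρ
  choose W hWle hWcl hWfin hW using fun m : ℕ => fgi d ℓ ρ.range hGc m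
  have hWc : ∀ m, IsCompact ((W m : Subgroup (GL d ℚ_[ℓ])) : Set (GL d ℚ_[ℓ])) := fun m =>
    hGc.of_isClosed_subset (hWcl m) (hWle m)
  choose U hUo hU1 hU using fun m : ℕ => Pool.Agent.MTL.H33.fra d ℓ (W m) (hWc m)
  -- the subgroups of `H`
  have hΓfin : ∀ m, ((W m).comap ρ).FiniteIndex := by
    intro m
    refine ⟨?_⟩
    rw [Subgroup.index_comap]
    exact hWfin m
  have hΓcl : ∀ m, IsClosed (((W m).comap ρ : Subgroup H) : Set H) := fun m =>
    (hWcl m).preimage hρ
  have hΓo : ∀ m, IsOpen (((W m).comap ρ : Subgroup H) : Set H) := by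
    intro m
    have := hΓfin m
    exact Subgroup.isOpen_of_isClosed_of_finiteIndex _ (hΓcl m)
  have hNex : ∀ m, ∃ N : OpenNormalSubgroup GT,
      (N : Set GT) ⊆ Subtype.val '' (ρ ⁻¹' (U m) ∩ (((W m).comap ρ : Subgroup H) : Set H)) := by
    intro m
    have h1 : IsOpen (ρ ⁻¹' (U m) ∩ (((W m).comap ρ : Subgroup H) : Set H)) :=
      ((hUo m).preimage hρ).inter (hΓo m)
    exact ProfiniteGrp.exist_openNormalSubgroup_sub_open_nhds_of_one (G := GT)
      (hH.isOpenMap_subtype_val _ h1)
      ⟨1, ⟨by rw [Set.mem_preimage, map_one]; exact hU1 m, Subgroup.one_mem _⟩, rfl⟩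
  choose N hN using hNex
  choose S hS hS2 using fun m : ℕ => hcu (N m).toSubgroup (N m).isNormal' (N m).isOpen'
  refine ⟨_, dgu (1 / 4) S hS, fun π hπ => ?_⟩
  set α := π (algebraMap ℚ[X] BB X) with hα
  set m := (minpoly ℚ α).natDegree with hm
  have hαS : α ∉ S m := hπ
  obtain ⟨c, hc, hcα, hγ⟩ := hS2 m π hαS
  obtain ⟨p, hp0, hpc, hpd⟩ := exists_poly ctp π c hc
  have hpm : p.natDegree ≤ m := by rw [hcα] at hpd; exact hpd
  obtain ⟨hst1, hst2, hst3⟩ := idx (c : Om) p hp0 hpc
  -- the stabiliser in `H`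
  set Hc : Subgroup H := (MulAction.stabilizer GT (c : Om)).subgroupOf H with hHcdef
  have hHccl : IsClosed (Hc : Set H) := hst1.preimage continuous_subtype_val
  have hHcidx : Hc.index ≤ m := by
    have h1 : Hc.index = (MulAction.stabilizer GT (c : Om)).relIndex H := rfl
    have hfi : (MulAction.stabilizer GT (c : Om)).FiniteIndex := ⟨hst2⟩
    rw [h1]
    have h2 := Subgroup.relIndex_le_of_le_right (H := MulAction.stabilizer GT (c : Om))
      (K := H) (L := ⊤) le_top (by rw [Subgroup.relIndex_top_right]; exact hst2)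
    rw [Subgroup.relIndex_top_right] at h2
    exact h2.trans (hst3.trans hpm)
  have hHcne : Hc.index ≠ 0 := by
    have hfi : (MulAction.stabilizer GT (c : Om)).FiniteIndex := ⟨hst2⟩
    have : Hc.FiniteIndex := inferInstanceAs
      ((MulAction.stabilizer GT (c : Om)).subgroupOf H).FiniteIndex
    exact this.index_ne_zero
  have hWHc : W m ≤ Hc.map ρ := by
    have hle : Hc.map ρ ≤ ρ.range := by
      rw [MonoidHom.range_eq_map]
      exact Subgroup.map_mono le_top
    have hdvd : (Hc.map ρ).relIndex ρ.range ∣ Hc.index := by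
      rw [← Subgroup.index_comap]
      exact Subgroup.index_dvd_of_le (Subgroup.le_comap_map _ _)
    refine hW m _ hle ?_ ?_ ?_
    · rw [Subgroup.coe_map]
      exact (hHccl.isCompact.image hρ).isClosed
    · intro h0
      rw [h0] at hdvd
      exact hHcne (Nat.eq_zero_of_zero_dvd hdvd)
    · exact (Nat.le_of_dvd (Nat.pos_of_ne_zero hHcne) hdvd).trans hHcidx
  -- the closed subgroup
  have hD : ((W m).comap ρ ⊓ (decG π).comap H.subtype).map ρ = W m := by
    apply hU m
    · rw [Subgroup.coe_map, Subgroup.coe_inf]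
      refine (IsClosed.isCompact ?_).image hρ |>.isClosed
      exact (hΓcl m).inter ((decG_closed π).preimage continuous_subtype_val)
    · rintro g ⟨γ, hγ', rfl⟩
      exact hγ'.1
    · intro w hw
      obtain ⟨γ, hγc, rfl⟩ := hWHc hw
      have hγc' : (γ : GT) • c = c := by
        apply Subtype.ext
        exact hγc
      obtain ⟨σ, hσ, hσc, hσγ⟩ := hγ (γ : GT) hγc'
      obtain ⟨n, ⟨hn1, hn3⟩, hn2⟩ := hN m hσγ
      have hσH : σ ∈ H := by
        have h3 : σ = (γ : GT) * (n : GT)⁻¹ := by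
          rw [hn2]
          group
        rw [h3]
        exact H.mul_mem γ.2 (H.inv_mem n.2)
      have h4 : (⟨σ, hσH⟩ : H)⁻¹ * γ = n := Subtype.ext hn2.symm
      have h5 : (⟨σ, hσH⟩ : H) = γ * n⁻¹ := by
        rw [← h4]
        group
      refine ⟨ρ ⟨σ, hσH⟩, Subgroup.mem_map_of_mem _ ⟨?_, hσ⟩, ?_⟩
      · rw [h5]
        exact Subgroup.mul_mem _ hw (Subgroup.inv_mem _ hn3)
      · rw [← map_inv, ← map_mul, h4]
        exact hn1
  refine ⟨(W m).comap ρ, hΓfin m, fun γ hγm => ?_⟩
  have h6 : ρ γ ∈ ((W m).comap ρ ⊓ (decG π).comap H.subtype).map ρ := by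
    rw [hD]
    exact hγm
  obtain ⟨σ, ⟨_, hσ⟩, hσ2⟩ := h6
  exact ⟨σ, hσ, hσ2⟩

end Pool.Agent.HUK.H7
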